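import Pool.Agent.Lib.MP_400390_ag.FinalProof

/-!
# Numerically `ℚ`-Cartier divisors on strongly `F`-regular varieties are `ℚ`-Cartier
-/

namespace Pool.Agent.Results.MP_400390_ag.NumericallyQCartier

open AlgebraicGeometry CategoryTheory FJ

universe u

theorem result (k : Type u) [Field k] [IsAlgClosed k] (p : ℕ) [Fact p.Prime] [CharP k p]
    (X : Scheme.{u}) [IsIntegral X] [IsLocallyNoetherian X] (s : X ⟶ Spec (.of k))
    [LocallyOfFiniteType s] [QuasiCompact s] [IsSeparated s]
    (hn : ∀ x : X, IsIntegrallyClosed (X.presheaf.stalk x)) (hF : IsStronglyFRegular X p)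
    (D : X → ℤ) (hD : LocallyFiniteDiv D) (hnum : NumQCartier X D) :
    IsQCartierDiv (fun x => (D x : ℚ)) :=
  isQCartierDiv_of_numQCartier k p s hn hF hD hnum

end Pool.Agent.Results.MP_400390_ag.NumericallyQCartier
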