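import Pool.Agent.Lib.MP_400390_ag.FinalProof

/-!
# F-jumping numbers on numerically `ℚ`-Gorenstein strongly `F`-regular varieties

On a numerically `ℚ`-Gorenstein strongly `F`-regular variety the `F`-jumping numbers of an effective
`ℚ`-Cartier `ℚ`-divisor are discrete and rational, and the `F`-pure threshold is rational.
-/

namespace Pool.Agent.Results.MP_400390_ag.NumericallyQGorenstein

open AlgebraicGeometry CategoryTheory FJ

universe u

theorem result (k : Type u) [Field k] [IsAlgClosed k] (p : ℕ) [Fact p.Prime] [CharP k p]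
    (X : Scheme.{u}) [IsIntegral X] [IsLocallyNoetherian X] (s : X ⟶ Spec (.of k))
    [LocallyOfFiniteType s] [QuasiCompact s] [IsSeparated s]
    (hn : ∀ x : X, IsIntegrallyClosed (X.presheaf.stalk x)) (hF : IsStronglyFRegular X p)
    (KX : X → ℤ) (hK : IsCanonicalDiv s KX) (hnum : NumQCartier X KX)
    (Z : X → ℚ) (hZ0 : ∀ x, 0 ≤ Z x) (hZ : IsQCartierDiv Z) :
    ∃ τ : ℝ → X.IdealSheafData,
      (∀ t, 0 ≤ t → IsTauSheaf p (fun x => t * (Z x : ℝ)) (τ t)) ∧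
      (∀ M : ℝ, {t | IsJump τ t ∧ t ≤ M}.Finite) ∧
      (∀ t, IsJump τ t → ∃ r : ℚ, (r : ℝ) = t) ∧
      (∀ s t, 0 ≤ s → s ≤ t → (∀ u, IsJump τ u → u ≤ s ∨ t < u) → τ s = τ t) ∧
      ∃ r : ℚ, (r : ℝ) = sSup {t : ℝ | 0 ≤ t ∧ τ t = ⊤} :=
  main k p X s hn hF _ hK hnum Z hZ0 hZ

end Pool.Agent.Results.MP_400390_ag.NumericallyQGorenstein
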